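import Pool.Agent.H84.B2.Targets
import Pool.Agent.H93.AR.TargetsD
import Pool.Agent.H48.BR.AQP

/-! # BL2: one dyadic block on `ℝ^(a+b)` (adapted from H20/BR/BL1.lean) -/

set_option autoImplicit false
set_option linter.unusedSectionVars false

namespace Pool.Agent.H86.B2

open MeasureTheory Set FourierTransform
open Pool.Agent.H83.LS Pool.Agent.H93.AR Pool.Agent.H54.LS Pool.Agent.H14.LS Pool.Agent.H83.AR
open Pool.Agent.H84.BR Pool.Agent.H84.B2 Pool.Agent.H19.LS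
open scoped ENNReal NNReal ContDiff SchwartzMap

/-- measurable, integrable, bounded -/
def Gd {d : ℕ} (g : EE d → ℂ) : Prop :=
  Measurable g ∧ Integrable g ∧ ∃ A : ℝ, ∀ x, ‖g x‖ ≤ A

/-- properties of the averages -/
structure PPr {d : ℕ} (P : ℝ → (EE d → ℂ) → EE d → ℂ) : Prop where
  gd : ∀ (L : ℝ) (g : EE d → ℂ), 1 ≤ L → Gd g → Gd (P L g)
  lp : ∀ (L : ℝ) (g : EE d → ℂ) (p : ℝ), 1 ≤ L → Measurable g → 1 ≤ p →
    ∫⁻ x, ‖P L g x‖ₑ ^ p ≤ ∫⁻ x, ‖g x‖ₑ ^ p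
  sub : ∀ (L : ℝ) (f g : EE d → ℂ), 1 ≤ L → Gd f → Gd g →
    P L (fun x => f x - g x) = fun x => P L f x - P L g x
  comm : ∀ (L L' : ℝ) (g : EE d → ℂ), 1 ≤ L → 1 ≤ L' → Gd g → P L (P L' g) = P L' (P L g)

/-- the scales -/
noncomputable def Li (K : ℕ) (lam : ℝ) (i : ℕ) : ℝ := lam ^ ((i : ℝ) / (2 * (K : ℝ)))

/-- one minus the average -/
noncomputable def Qr {d : ℕ} (P : ℝ → (EE d → ℂ) → EE d → ℂ) (L : ℝ) (g : EE d → ℂ) (x : EE d) :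
    ℂ := g x - P L g x

/-- the successive remainders -/
noncomputable def gs {d : ℕ} (P : ℝ → (EE d → ℂ) → EE d → ℂ) (K : ℕ) (lam : ℝ) :
    ℕ → (EE d → ℂ) → EE d → ℂ
  | 0, f => f
  | i + 1, f => Qr P (Li K lam (i + 1)) (gs P K lam i f)

theorem ediff_rpow (p : ℝ) (hp : 1 ≤ p) (a b : ℂ) :
    ‖a - b‖ₑ ^ p ≤ (2 : ℝ≥0∞) ^ (p - 1) * (‖a‖ₑ ^ p + ‖b‖ₑ ^ p) := by
  refine (ENNReal.rpow_le_rpow (enorm_sub_le) (by linarith)).trans ?_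
  exact ENNReal.rpow_add_le_mul_rpow_add_rpow _ _ hp

theorem eadd_rpow (p : ℝ) (hp : 1 ≤ p) (a b : ℂ) :
    ‖a + b‖ₑ ^ p ≤ (2 : ℝ≥0∞) ^ (p - 1) * (‖a‖ₑ ^ p + ‖b‖ₑ ^ p) := by
  refine (ENNReal.rpow_le_rpow (enorm_add_le _ _) (by linarith)).trans ?_
  exact ENNReal.rpow_add_le_mul_rpow_add_rpow _ _ hp

theorem two_mul_rpow (p : ℝ) : (2 : ℝ≥0∞) ^ (p - 1) * 2 = 2 ^ p := by
  have h : (2 : ℝ≥0∞) ^ (p - 1) * 2 ^ (1 : ℝ) = 2 ^ (p - 1 + 1) :=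
    (ENNReal.rpow_add _ _ (by norm_num) (by norm_num)).symm
  rw [ENNReal.rpow_one] at h
  rw [h]
  congr 1
  ring

/-- if `‖c x‖ ≤ ‖a x‖ + ‖b x‖` in `L^p` with `b` at most as large as `a` -/
theorem lp_sub {d : ℕ} (p : ℝ) (hp : 1 ≤ p) {a b : EE d → ℂ} (ha : Measurable a)
    (hab : ∫⁻ x, ‖b x‖ₑ ^ p ≤ ∫⁻ x, ‖a x‖ₑ ^ p) (c : EE d → ℂ)
    (hc : ∀ x, ‖c x‖ₑ ^ p ≤ (2 : ℝ≥0∞) ^ (p - 1) * (‖a x‖ₑ ^ p + ‖b x‖ₑ ^ p)) :
    ∫⁻ x, ‖c x‖ₑ ^ p ≤ 2 ^ p * ∫⁻ x, ‖a x‖ₑ ^ p := by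
  have h2 : (2 : ℝ≥0∞) ^ (p - 1) ≠ ⊤ := by
    apply ENNReal.rpow_ne_top_of_nonneg (by linarith) (by norm_num)
  calc ∫⁻ x, ‖c x‖ₑ ^ p ≤ ∫⁻ x, (2 : ℝ≥0∞) ^ (p - 1) * (‖a x‖ₑ ^ p + ‖b x‖ₑ ^ p) :=
        lintegral_mono hc
    _ = (2 : ℝ≥0∞) ^ (p - 1) * ((∫⁻ x, ‖a x‖ₑ ^ p) + ∫⁻ x, ‖b x‖ₑ ^ p) := by
        rw [lintegral_const_mul' _ _ h2, lintegral_add_left (ha.enorm.pow_const p)]
    _ ≤ (2 : ℝ≥0∞) ^ (p - 1) * ((∫⁻ x, ‖a x‖ₑ ^ p) + ∫⁻ x, ‖a x‖ₑ ^ p) := by gcongr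
    _ = _ := by
        rw [← two_mul, ← mul_assoc, two_mul_rpow]

theorem Li_ge {K : ℕ} {lam : ℝ} (hl : 1 ≤ lam) (i : ℕ) : 1 ≤ Li K lam i :=
  Real.one_le_rpow hl (by positivity)

theorem Li_zero {K : ℕ} {lam : ℝ} : Li K lam 0 = 1 := by
  unfold Li
  simp

section

variable {d : ℕ} {P : ℝ → (EE d → ℂ) → EE d → ℂ} (hP : PPr P)

include hP

theorem Qr_gd {L : ℝ} (hL : 1 ≤ L) {g : EE d → ℂ} (hg : Gd g) : Gd (Qr P L g) := by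
  have h1 := hP.gd L g hL hg
  obtain ⟨hm, hi, A, hA⟩ := hg
  obtain ⟨hm', hi', A', hA'⟩ := h1
  exact ⟨hm.sub hm', hi.sub hi', A + A', fun x => (norm_sub_le _ _).trans
    (add_le_add (hA x) (hA' x))⟩

theorem Qr_lp {L p : ℝ} (hL : 1 ≤ L) (hp : 1 ≤ p) {g : EE d → ℂ} (hg : Gd g) :
    ∫⁻ x, ‖Qr P L g x‖ₑ ^ p ≤ 2 ^ p * ∫⁻ x, ‖g x‖ₑ ^ p :=
  lp_sub p hp hg.1 (b := P L g) (hP.lp L g p hL hg.1 hp) _ fun x => ediff_rpow p hp _ _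

theorem Qr_comm {L L' : ℝ} (hL : 1 ≤ L) (hL' : 1 ≤ L') {g : EE d → ℂ} (hg : Gd g) :
    Qr P L (Qr P L' g) = Qr P L' (Qr P L g) := by
  have key : ∀ {L L' : ℝ}, 1 ≤ L → 1 ≤ L' → ∀ x, Qr P L (Qr P L' g) x =
      g x - P L' g x - (P L g x - P L (P L' g) x) := by
    intro L L' hL hL' x
    have e1 : P L (Qr P L' g) = fun x => P L g x - P L (P L' g) x := by
      have : Qr P L' g = fun x => g x - P L' g x := rfl
      rw [this]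
      exact hP.sub L g (P L' g) hL hg (hP.gd L' g hL' hg)
    show Qr P L' g x - P L (Qr P L' g) x = _
    rw [e1]
    rfl
  funext x
  rw [key hL hL' x, key hL' hL x, hP.comm L L' g hL hL' hg]
  ring

variable {K : ℕ} {lam : ℝ} (hl : 1 ≤ lam)

include hl

theorem gs_gd (i : ℕ) {f : EE d → ℂ} (hf : Gd f) : Gd (gs P K lam i f) := by
  induction i with
  | zero => exact hf
  | succ i ih => exact Qr_gd hP (Li_ge hl _) ih

theorem gs_lp {p : ℝ} (hp : 1 ≤ p) (i : ℕ) {f : EE d → ℂ} (hf : Gd f) :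
    ∫⁻ x, ‖gs P K lam i f x‖ₑ ^ p ≤ ((2 : ℝ≥0∞) ^ p) ^ i * ∫⁻ x, ‖f x‖ₑ ^ p := by
  induction i with
  | zero => simp [gs]
  | succ i ih =>
    refine (Qr_lp hP (Li_ge hl _) hp (gs_gd hP hl i hf)).trans ?_
    rw [pow_succ, mul_comm (((2 : ℝ≥0∞) ^ p) ^ i), mul_assoc]
    exact mul_le_mul' le_rfl ih

theorem gs_comm {L : ℝ} (hL : 1 ≤ L) (i : ℕ) {f : EE d → ℂ} (hf : Gd f) :
    Qr P L (gs P K lam i f) = gs P K lam i (Qr P L f) := by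
  induction i with
  | zero => rfl
  | succ i ih =>
    show Qr P L (Qr P (Li K lam (i + 1)) (gs P K lam i f)) =
      Qr P (Li K lam (i + 1)) (gs P K lam i (Qr P L f))
    rw [Qr_comm hP hL (Li_ge hl _) (gs_gd hP hl i hf), ih]

end

/-- the multiplier is additive -/
theorem MM_sub' {d : ℕ} {lam : ℝ} (hl0 : 0 < lam) (hPLE : T_PLE) (t : ℝ)
    {a b : EE d → ℂ} (ha : Gd a) (hb : Gd b) (x : EE d) :
    MM (mT lam t) (fun x => a x - b x) x = MM (mT lam t) a x - MM (mT lam t) b x := by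
  obtain ⟨ham, hai, A, hA⟩ := ha
  obtain ⟨hbm, hbi, B, hB⟩ := hb
  have hsb : ∀ y, ‖a y - b y‖ ≤ A + B := fun y => (norm_sub_le _ _).trans (add_le_add (hA y) (hB y))
  rw [MM_conv lam hl0 hPLE t (fun x => a x - b x) (hai.sub hbi) (ham.sub hbm) ⟨_, hsb⟩ x,
    MM_conv lam hl0 hPLE t a hai ham ⟨A, hA⟩ x, MM_conv lam hl0 hPLE t b hbi hbm ⟨B, hB⟩ x]
  have hKm : AEStronglyMeasurable (fun y : EE d => MK (mT lam t) (x - y)) :=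
    ((MK_cont lam hl0 t).comp (continuous_const.sub continuous_id)).aestronglyMeasurable
  have hint : ∀ g : EE d → ℂ, Integrable g →
      Integrable fun y => MK (mT lam t) (x - y) * g y := fun g hg =>
    hg.bdd_mul (c := ∫ ξ : EE d, ‖mT lam t ξ‖) hKm
      (Filter.Eventually.of_forall fun y => MK_le lam hl0 t _)
  rw [← integral_sub (hint a hai) (hint b hbi)]
  congr 1
  funext y
  ring

/-- the Lebesgue norms of the remainders -/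
theorem gs_bd {d : ℕ} {P : ℝ → (EE d → ℂ) → EE d → ℂ} (hP : PPr P) {p : ℝ} (hp : 1 ≤ p) {K : ℕ}
    {CD : ℝ≥0} {lam : ℝ} (hl : 1 ≤ lam) (f : EE d → ℂ) (hf : Gd f) (B₀ B₁ : ℝ≥0∞)
    (h01 : B₀ ≤ B₁) (hB₀ : ∫⁻ x, ‖f x‖ₑ ^ p ≤ B₀)
    (hCD : ∀ L : ℝ, 1 ≤ L → ∫⁻ x, ‖f x - P L f x‖ₑ ^ p ≤ CD * ENNReal.ofReal (L ^ (-p)) * B₁)
    (i : ℕ) (hi : i ≤ K) :
    ∫⁻ x, ‖gs P K lam i f x‖ₑ ^ p ≤
      (1 + ((2 : ℝ≥0∞) ^ p) ^ K * (1 + CD)) * (ENNReal.ofReal (Li K lam i ^ (-p)) * B₁) := by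
  have hT : (1 : ℝ≥0∞) ≤ 2 ^ p := ENNReal.one_le_rpow (by norm_num) (by linarith)
  rcases i with _ | i
  · rw [Li_zero, Real.one_rpow, ENNReal.ofReal_one, one_mul]
    have h1 : ∫⁻ x, ‖f x‖ₑ ^ p ≤ B₁ := hB₀.trans h01
    show ∫⁻ x, ‖f x‖ₑ ^ p ≤ _
    calc ∫⁻ x, ‖f x‖ₑ ^ p ≤ 1 * B₁ := by rw [one_mul]; exact h1
      _ ≤ _ := mul_le_mul' le_self_add le_rfl
  · set L := Li K lam (i + 1) with hL
    have hL1 : 1 ≤ L := Li_ge hl _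
    have e1 : gs P K lam (i + 1) f = gs P K lam i (Qr P L f) := gs_comm hP hl hL1 i hf
    rw [e1]
    calc ∫⁻ x, ‖gs P K lam i (Qr P L f) x‖ₑ ^ p
        ≤ ((2 : ℝ≥0∞) ^ p) ^ i * ∫⁻ x, ‖Qr P L f x‖ₑ ^ p :=
          gs_lp hP hl hp i (Qr_gd hP hL1 hf)
      _ ≤ ((2 : ℝ≥0∞) ^ p) ^ i * (CD * ENNReal.ofReal (L ^ (-p)) * B₁) :=
          mul_le_mul' le_rfl (hCD L hL1)
      _ = ((2 : ℝ≥0∞) ^ p) ^ i * CD * (ENNReal.ofReal (L ^ (-p)) * B₁) := by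
          ring
      _ ≤ _ := by
          refine mul_le_mul' ?_ le_rfl
          refine le_trans ?_ le_add_self
          exact mul_le_mul' (pow_le_pow_right' hT (by omega)) le_add_self

/-- interpolation between the two bounds -/
theorem gs_int {d : ℕ} {P : ℝ → (EE d → ℂ) → EE d → ℂ} (hP : PPr P) {p : ℝ} (hp : 2 < p) {K : ℕ}
    {CD : ℝ≥0} {lam : ℝ} (hl : 1 ≤ lam) (f : EE d → ℂ) (hf : Gd f) (B₀ B₁ : ℝ≥0∞)
    (h01 : B₀ ≤ B₁) (hB₀ : ∫⁻ x, ‖f x‖ₑ ^ p ≤ B₀)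
    (hCD : ∀ L : ℝ, 1 ≤ L → ∫⁻ x, ‖f x - P L f x‖ₑ ^ p ≤ CD * ENNReal.ofReal (L ^ (-p)) * B₁)
    (i : ℕ) (hi : i ≤ K) :
    ∫⁻ x, ‖gs P K lam i f x‖ₑ ^ p ≤
      (1 + ((2 : ℝ≥0∞) ^ p) ^ K * (1 + CD)) *
        ENNReal.ofReal (Li K lam i ^ (-(2 : ℝ))) * (B₀ ^ (1 - 2 / p) * B₁ ^ (2 / p)) := by
  have hT : (1 : ℝ≥0∞) ≤ 2 ^ p := ENNReal.one_le_rpow (by norm_num) (by linarith)
  have h1 := gs_bd (K := K) hP (by linarith : (1 : ℝ) ≤ p) hl f hf B₀ B₁ h01 hB₀ hCD i hi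
  set M : ℝ≥0∞ := 1 + ((2 : ℝ≥0∞) ^ p) ^ K * (1 + CD) with hM
  have h2 : ∫⁻ x, ‖gs P K lam i f x‖ₑ ^ p ≤ M * B₀ := by
    refine (gs_lp hP hl (by linarith : (1 : ℝ) ≤ p) i hf).trans ?_
    refine mul_le_mul' ?_ hB₀
    calc ((2 : ℝ≥0∞) ^ p) ^ i ≤ ((2 : ℝ≥0∞) ^ p) ^ K := pow_le_pow_right' hT hi
      _ = ((2 : ℝ≥0∞) ^ p) ^ K * 1 := (mul_one _).symm
      _ ≤ ((2 : ℝ≥0∞) ^ p) ^ K * (1 + CD) := mul_le_mul' le_rfl le_self_add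
      _ ≤ M := le_add_self
  set a := ∫⁻ x, ‖gs P K lam i f x‖ₑ ^ p with ha
  have hc0 : 0 ≤ 2 / p := by positivity
  have hc1 : 0 ≤ 1 - 2 / p := by
    rw [sub_nonneg, div_le_one (by linarith)]
    linarith
  have hL1 : 1 ≤ Li K lam i := Li_ge hl i
  have hL0 : 0 ≤ Li K lam i := by linarith
  have e1 : a = a ^ (1 - 2 / p) * a ^ (2 / p) := by
    rw [← ENNReal.rpow_add_of_nonneg _ _ hc1 hc0]
    have : 1 - 2 / p + 2 / p = 1 := by ring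
    rw [this, ENNReal.rpow_one]
  have e2 : M ^ (1 - 2 / p) * M ^ (2 / p) = M := by
    rw [← ENNReal.rpow_add_of_nonneg _ _ hc1 hc0]
    have : 1 - 2 / p + 2 / p = 1 := by ring
    rw [this, ENNReal.rpow_one]
  have e3 : ENNReal.ofReal (Li K lam i ^ (-p)) ^ (2 / p) =
      ENNReal.ofReal (Li K lam i ^ (-(2 : ℝ))) := by
    rw [ENNReal.ofReal_rpow_of_nonneg (Real.rpow_nonneg hL0 _) hc0, ← Real.rpow_mul hL0]
    congr 2
    field_simp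
  rw [e1]
  calc a ^ (1 - 2 / p) * a ^ (2 / p)
      ≤ (M * B₀) ^ (1 - 2 / p) * (M * (ENNReal.ofReal (Li K lam i ^ (-p)) * B₁)) ^ (2 / p) :=
        mul_le_mul' (ENNReal.rpow_le_rpow h2 hc1) (ENNReal.rpow_le_rpow h1 hc0)
    _ = (M ^ (1 - 2 / p) * M ^ (2 / p)) * ENNReal.ofReal (Li K lam i ^ (-(2 : ℝ))) *
        (B₀ ^ (1 - 2 / p) * B₁ ^ (2 / p)) := by
        rw [ENNReal.mul_rpow_of_nonneg _ _ hc1, ENNReal.mul_rpow_of_nonneg _ _ hc0,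
          ENNReal.mul_rpow_of_nonneg _ _ hc0, e3]
        ring
    _ = _ := by rw [e2]

/-- one dyadic block, abstract form -/
theorem bl_abs {d : ℕ} {P : ℝ → (EE d → ℂ) → EE d → ℂ} (hP : PPr P) (hPLE : T_PLE) (N p η : ℝ)
    (hN : 0 < N) (hp : 2 + 2 / N ≤ p) (hη : 0 < η) (CS CF CD : ℝ≥0)
    (hCS : ∀ (lam L : ℝ) (f : EE d → ℂ), 1 ≤ L → L ^ 2 ≤ lam → Measurable f →
      Integrable f → (∃ A : ℝ, ∀ x, ‖f x‖ ≤ A) →
      ∫⁻ t in Icc (1 : ℝ) 2, ∫⁻ x, ‖MM (mT lam t) (P L f) x‖ₑ ^ p ≤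
        CS * ENNReal.ofReal (lam ^ (N * (p / 2 - 1) - 1 + η / 2) * L ^ 2) *
          ∫⁻ x, ‖f x‖ₑ ^ p)
    (hCF : ∀ (lam : ℝ) (f : EE d → ℂ), 1 ≤ lam → Measurable f →
      Integrable f → (∃ A : ℝ, ∀ x, ‖f x‖ ≤ A) →
      ∫⁻ t in Icc (1 : ℝ) 2, ∫⁻ x, ‖MM (mT lam t) f x‖ₑ ^ p ≤
        CF * ENNReal.ofReal (lam ^ (N * (p / 2 - 1) + η)) * ∫⁻ x, ‖f x‖ₑ ^ p) :
    ∃ C : ℝ≥0, ∀ (lam : ℝ) (f : EE d → ℂ) (B₀ B₁ : ℝ≥0∞), 1 ≤ lam → B₀ ≤ B₁ → Gd f →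
      ∫⁻ x, ‖f x‖ₑ ^ p ≤ B₀ →
      (∀ L : ℝ, 1 ≤ L → ∫⁻ x, ‖f x - P L f x‖ₑ ^ p ≤ CD * ENNReal.ofReal (L ^ (-p)) * B₁) →
      ∫⁻ t in Icc (1 : ℝ) 2, ∫⁻ x, ‖MM (mT lam t) f x‖ₑ ^ p ≤
        C * ENNReal.ofReal (lam ^ (N * (p / 2 - 1) - 1 + η)) *
          (B₀ ^ (1 - 2 / p) * B₁ ^ (2 / p)) := by
  have h2n : 0 < 2 / N := by positivity
  have hp2 : 2 < p := by linarith
  have hp1 : 1 ≤ p := by linarith
  obtain ⟨K, hK⟩ := exists_nat_gt (2 / η)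
  have hKpos : (0 : ℝ) < K := lt_trans (by positivity) hK
  have hK1 : 1 / (K : ℝ) ≤ η / 2 := by
    rw [div_le_iff₀ hKpos]
    rw [div_lt_iff₀ hη] at hK
    nlinarith
  set E : ℝ := N * (p / 2 - 1) with hE
  set T : ℝ≥0∞ := 2 ^ p with hTdef
  have hT : (1 : ℝ≥0∞) ≤ T := ENNReal.one_le_rpow (by norm_num) (by linarith)
  have hTtop : T ≠ ⊤ := ENNReal.rpow_ne_top_of_nonneg (by linarith) (by norm_num)
  set M : ℝ≥0∞ := 1 + T ^ K * (1 + CD) with hM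
  have hMtop : M ≠ ⊤ := by
    rw [hM]
    exact ENNReal.add_ne_top.2 ⟨by norm_num, ENNReal.mul_ne_top (ENNReal.pow_ne_top hTtop)
      (ENNReal.add_ne_top.2 ⟨by norm_num, ENNReal.coe_ne_top⟩)⟩
  set c0 : ℝ≥0∞ := ((CS : ℝ≥0∞) + CF) * M with hc0
  have hc0top : c0 ≠ ⊤ := ENNReal.mul_ne_top
    (ENNReal.add_ne_top.2 ⟨ENNReal.coe_ne_top, ENNReal.coe_ne_top⟩) hMtop
  have hCtop : T ^ K * c0 ≠ ⊤ := ENNReal.mul_ne_top (ENNReal.pow_ne_top hTtop) hc0top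
  refine ⟨(T ^ K * c0).toNNReal, fun lam f B₀ B₁ hl h01 hf hB₀ hCD => ?_⟩
  rw [ENNReal.coe_toNNReal hCtop]
  have hl0 : 0 < lam := by linarith
  have hg : ∀ i, Gd (gs P K lam i f) := fun i => gs_gd hP hl i hf
  have hmeas : ∀ g : EE d → ℂ, Gd g →
      Measurable fun q : ℝ × EE d => ‖MM (mT lam q.1) g q.2‖ₑ ^ p := fun g hg =>
    (MM_cont lam hl0 g hg.2.1).measurable.enorm.pow_const p
  have hbd := gs_int (K := K) hP hp2 hl f hf B₀ B₁ h01 hB₀ hCD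
  set B : ℝ≥0∞ := B₀ ^ (1 - 2 / p) * B₁ ^ (2 / p) with hBdef
  set X : ℝ≥0∞ := ENNReal.ofReal (lam ^ (E - 1 + η)) * B with hX
  -- the pieces
  have hJ : ∀ i < K, ∫⁻ q, ‖MM (mT lam q.1) (P (Li K lam (i + 1))
      (gs P K lam i f)) q.2‖ₑ ^ p ∂(stm d) ≤ c0 * X := by
    intro i hi
    have hL1 : 1 ≤ Li K lam (i + 1) := Li_ge hl _
    have hL2 : Li K lam (i + 1) ^ 2 ≤ lam := by
      have e : Li K lam (i + 1) ^ 2 = lam ^ (((i + 1 : ℕ) : ℝ) / K) := by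
        unfold Li
        rw [← Real.rpow_natCast, ← Real.rpow_mul hl0.le]
        congr 1
        push_cast
        field_simp
      rw [e]
      calc lam ^ (((i + 1 : ℕ) : ℝ) / K) ≤ lam ^ (1 : ℝ) := by
            apply Real.rpow_le_rpow_of_exponent_le hl
            rw [div_le_one hKpos]
            exact_mod_cast hi
        _ = lam := Real.rpow_one lam
    have hgi := hg i
    have hAA : Gd (P (Li K lam (i + 1)) (gs P K lam i f)) := hP.gd _ _ hL1 hgi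
    rw [← st_eq _ (hmeas _ hAA)]
    refine (hCS lam (Li K lam (i + 1)) (gs P K lam i f) hL1 hL2 hgi.1 hgi.2.1 hgi.2.2).trans ?_
    refine (mul_le_mul' le_rfl (hbd i hi.le)).trans ?_
    have hreal : lam ^ (E - 1 + η / 2) * Li K lam (i + 1) ^ 2 * Li K lam i ^ (-(2 : ℝ)) ≤
        lam ^ (E - 1 + η) := by
      have e : lam ^ (E - 1 + η / 2) * Li K lam (i + 1) ^ 2 * Li K lam i ^ (-(2 : ℝ)) =
          lam ^ (E - 1 + η / 2 + ((i + 1 : ℕ) : ℝ) / (2 * K) * (2 : ℕ) +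
            (i : ℝ) / (2 * K) * (-(2 : ℝ))) := by
        unfold Li
        rw [← Real.rpow_natCast, ← Real.rpow_mul hl0.le, ← Real.rpow_mul hl0.le,
          ← Real.rpow_add hl0, ← Real.rpow_add hl0]
      rw [e]
      apply Real.rpow_le_rpow_of_exponent_le hl
      have h1 : ((i + 1 : ℕ) : ℝ) / (2 * K) * (2 : ℕ) + (i : ℝ) / (2 * K) * (-(2 : ℝ)) =
          1 / K := by
        push_cast
        field_simp
        ring
      linarith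
    have hL0 : (0 : ℝ) ≤ lam ^ (E - 1 + η / 2) * Li K lam (i + 1) ^ 2 := by positivity
    calc (CS : ℝ≥0∞) * ENNReal.ofReal (lam ^ (E - 1 + η / 2) *
          Li K lam (i + 1) ^ 2) * (M * ENNReal.ofReal (Li K lam i ^ (-(2 : ℝ))) * B)
        = (CS : ℝ≥0∞) * M * (ENNReal.ofReal (lam ^ (E - 1 + η / 2) * Li K lam (i + 1) ^ 2) *
            ENNReal.ofReal (Li K lam i ^ (-(2 : ℝ))) * B) := by
          ring
      _ ≤ c0 * X := by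
          refine mul_le_mul' (mul_le_mul' le_self_add le_rfl) (mul_le_mul' ?_ le_rfl)
          rw [← ENNReal.ofReal_mul hL0]
          exact ENNReal.ofReal_le_ofReal hreal
  have hI : ∫⁻ q, ‖MM (mT lam q.1) (gs P K lam K f) q.2‖ₑ ^ p ∂(stm d) ≤ c0 * X := by
    have hgi := hg K
    rw [← st_eq _ (hmeas _ hgi)]
    refine (hCF lam (gs P K lam K f) hl hgi.1 hgi.2.1 hgi.2.2).trans ?_
    refine (mul_le_mul' le_rfl (hbd K le_rfl)).trans ?_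
    have hreal : lam ^ (E + η) * Li K lam K ^ (-(2 : ℝ)) ≤ lam ^ (E - 1 + η) := by
      have e : lam ^ (E + η) * Li K lam K ^ (-(2 : ℝ)) =
          lam ^ (E + η + (K : ℝ) / (2 * K) * (-(2 : ℝ))) := by
        unfold Li
        rw [← Real.rpow_mul hl0.le, ← Real.rpow_add hl0]
      rw [e]
      apply Real.rpow_le_rpow_of_exponent_le hl
      have h1 : (K : ℝ) / (2 * K) * (-(2 : ℝ)) = -1 := by
        field_simp
      linarith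
    have hL0 : (0 : ℝ) ≤ lam ^ (E + η) := by positivity
    calc (CF : ℝ≥0∞) * ENNReal.ofReal (lam ^ (E + η)) *
          (M * ENNReal.ofReal (Li K lam K ^ (-(2 : ℝ))) * B)
        = (CF : ℝ≥0∞) * M * (ENNReal.ofReal (lam ^ (E + η)) *
            ENNReal.ofReal (Li K lam K ^ (-(2 : ℝ))) * B) := by
          ring
      _ ≤ c0 * X := by
          refine mul_le_mul' (mul_le_mul' le_add_self le_rfl) (mul_le_mul' ?_ le_rfl)
          rw [← ENNReal.ofReal_mul hL0]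
          exact ENNReal.ofReal_le_ofReal hreal
  -- downward induction
  have hind : ∀ j ≤ K, ∫⁻ q, ‖MM (mT lam q.1) (gs P K lam (K - j) f) q.2‖ₑ ^ p ∂(stm d) ≤
      T ^ j * (c0 * X) := by
    intro j
    induction j with
    | zero =>
      intro _
      rw [pow_zero, one_mul]
      exact hI
    | succ j ih =>
      intro hj
      have ih' := ih (by omega)
      obtain ⟨i, hi⟩ : ∃ i, K - j = i + 1 := ⟨K - (j + 1), by omega⟩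
      have hi' : K - (j + 1) = i := by omega
      have hiK : i < K := by omega
      rw [hi] at ih'
      rw [hi']
      have hL1 : 1 ≤ Li K lam (i + 1) := Li_ge hl _
      have hgi := hg i
      have hAA : Gd (P (Li K lam (i + 1)) (gs P K lam i f)) := hP.gd _ _ hL1 hgi
      have h2top : (2 : ℝ≥0∞) ^ (p - 1) ≠ ⊤ := by
        apply ENNReal.rpow_ne_top_of_nonneg (by linarith) (by norm_num)
      have hpt : ∀ q : ℝ × EE d, ‖MM (mT lam q.1) (gs P K lam i f) q.2‖ₑ ^ p ≤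
          (2 : ℝ≥0∞) ^ (p - 1) * (‖MM (mT lam q.1) (P (Li K lam (i + 1))
            (gs P K lam i f)) q.2‖ₑ ^ p +
            ‖MM (mT lam q.1) (gs P K lam (i + 1) f) q.2‖ₑ ^ p) := by
        intro q
        have h1 : MM (mT lam q.1) (gs P K lam (i + 1) f) q.2 =
            MM (mT lam q.1) (gs P K lam i f) q.2 -
            MM (mT lam q.1) (P (Li K lam (i + 1)) (gs P K lam i f)) q.2 :=
          MM_sub' hl0 hPLE q.1 hgi hAA q.2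
        have h2 : MM (mT lam q.1) (gs P K lam i f) q.2 =
            MM (mT lam q.1) (P (Li K lam (i + 1)) (gs P K lam i f)) q.2 +
            MM (mT lam q.1) (gs P K lam (i + 1) f) q.2 := by
          rw [h1]
          ring
        rw [h2]
        exact eadd_rpow p hp1 _ _
      have hT1 : (1 : ℝ≥0∞) ≤ T ^ j := one_le_pow₀ hT
      calc ∫⁻ q, ‖MM (mT lam q.1) (gs P K lam i f) q.2‖ₑ ^ p ∂(stm d)
          ≤ ∫⁻ q, (2 : ℝ≥0∞) ^ (p - 1) * (‖MM (mT lam q.1) (P (Li K lam (i + 1))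
            (gs P K lam i f)) q.2‖ₑ ^ p +
            ‖MM (mT lam q.1) (gs P K lam (i + 1) f) q.2‖ₑ ^ p) ∂(stm d) :=
            lintegral_mono hpt
        _ = (2 : ℝ≥0∞) ^ (p - 1) * ((∫⁻ q, ‖MM (mT lam q.1) (P (Li K lam (i + 1))
            (gs P K lam i f)) q.2‖ₑ ^ p ∂(stm d)) +
            ∫⁻ q, ‖MM (mT lam q.1) (gs P K lam (i + 1) f) q.2‖ₑ ^ p ∂(stm d)) := by
            rw [lintegral_const_mul' _ _ h2top, lintegral_add_left (hmeas _ hAA)]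
        _ ≤ (2 : ℝ≥0∞) ^ (p - 1) * (T ^ j * (c0 * X) + T ^ j * (c0 * X)) := by
            refine mul_le_mul' le_rfl (add_le_add ?_ ih')
            refine (hJ i hiK).trans ?_
            calc c0 * X = 1 * (c0 * X) := (one_mul _).symm
              _ ≤ _ := mul_le_mul' hT1 le_rfl
        _ = T ^ (j + 1) * (c0 * X) := by
            rw [← two_mul, ← mul_assoc, two_mul_rpow, pow_succ, ← mul_assoc, ← hTdef]
            ring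
  have hfin := hind K le_rfl
  rw [Nat.sub_self] at hfin
  rw [st_eq (fun q => ‖MM (mT lam q.1) f q.2‖ₑ ^ p) (hmeas _ hf)]
  refine hfin.trans (le_of_eq ?_)
  rw [hX]
  ring

theorem aq_ppr (hAQP : T_AQP) {a b : ℕ} (ha : 1 ≤ a) (hb : 1 ≤ b) : PPr (AQ a b) where
  gd L g hL hg := by
    obtain ⟨h1, h2, -, h4, -⟩ := hAQP a b L ha hb hL
    obtain ⟨hm, hi, A, hA⟩ := hg
    exact ⟨h1 g hm, h4 g hm hi, A, h2 g A hm hA⟩
  lp L g p hL hg hp := (hAQP a b L ha hb hL).2.2.1 g p hg hp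
  sub L f g hL hf hg := by
    funext x
    exact (hAQP a b L ha hb hL).2.2.2.2.2.1 f g hf.1 hg.1 hf.2.2 hg.2.2 x
  comm L L' g hL hL' hg := by
    funext x
    exact (hAQP a b L ha hb hL).2.2.2.2.2.2.2.1 g L' hL' hg.1 hg.2.2 x

theorem fx_aux (hFX : T_FX) {a b : ℕ} (hb : 1 ≤ b) (hab : 2 ≤ a + b) (p η : ℝ) (hp : 2 < p)
    (hη : 0 < η) : ∃ CF : ℝ≥0, ∀ (lam : ℝ) (f : EE (a + b) → ℂ), 1 ≤ lam → Measurable f →
      Integrable f → (∃ A : ℝ, ∀ x, ‖f x‖ ≤ A) →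
      ∫⁻ t in Icc (1 : ℝ) 2, ∫⁻ x, ‖MM (mT lam t) f x‖ₑ ^ p ≤
        CF * ENNReal.ofReal (lam ^ (((a : ℝ) + b - 1) * (p / 2 - 1) + η)) *
          ∫⁻ x, ‖f x‖ₑ ^ p := by
  obtain ⟨b', rfl⟩ : ∃ b', b = b' + 1 := ⟨b - 1, by omega⟩
  obtain ⟨CF, hCF⟩ := hFX (a + b') p η (by omega) hp hη
  refine ⟨CF, fun lam f hl hm hi hb => ?_⟩
  have h := hCF lam f hl hm hi hb
  have e1 : ((a + b' : ℕ) : ℝ) = (a : ℝ) + ((b' + 1 : ℕ) : ℝ) - 1 := by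
    push_cast
    ring
  rw [e1] at h
  exact h

theorem pf_bl2 (hMA : T_MA2) (hGAQ : T_GAQ) (hAQP : T_AQP) (hAM1 : Pool.Agent.H93.AR.T_AM1)
    (hAM2 : Pool.Agent.H93.AR.T_AM2) (hAD : T_AD2) (hFX : T_FX)
    (hMARC : T_MARC) (hRADL : T_RADL) (hPLE : T_PLE) : T_BL2 := by
  intro a b p η ha hb hp hη
  have ha1 : 1 ≤ a := by omega
  have hb1 : 1 ≤ b := by omega
  have haR : (2 : ℝ) ≤ a := by exact_mod_cast ha
  have hbR : (2 : ℝ) ≤ b := by exact_mod_cast hb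
  have hN : 0 < (a : ℝ) + b - 1 := by linarith
  have h2n : 0 < 2 / ((a : ℝ) + b - 1) := by positivity
  have hp2 : 2 < p := by linarith
  have hp1 : 1 ≤ p := by linarith
  have hcast : ((a + b : ℕ) : ℝ) - 1 = (a : ℝ) + b - 1 := by push_cast; ring
  obtain ⟨CS, hCS⟩ := strongP hMARC hRADL hPLE (a + b) (by omega) (AQ a b)
    (fun L hL => hGAQ a b L ha1 hb1 hL) (hMA a b ha hb) p (η / 2) (by rw [hcast]; exact hp)
    (by positivity)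
  rw [hcast] at hCS
  obtain ⟨CF, hCF⟩ := fx_aux hFX hb1 (by omega : 2 ≤ a + b) p η hp2 hη
  obtain ⟨CD, hCD⟩ := hAD a b p ha1 hb1 hp1
  set CD' : ℝ≥0 := (ENNReal.ofReal ((4 : ℝ) ^ p)).toNNReal * CD *
    (((b : ℝ≥0) * b) + ((a : ℝ≥0) * a)) with hCD'
  obtain ⟨C, hC⟩ := bl_abs (aq_ppr hAQP ha1 hb1) hPLE ((a : ℝ) + b - 1) p η hN hp hη CS CF CD'
    hCS hCF
  refine ⟨C, fun lam f B₀ B₁ hl h01 hB₀ hB₁ => ?_⟩
  have hf : Gd (f : EE (a + b) → ℂ) :=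
    ⟨f.continuous.measurable, f.integrable, _, fun x => SchwartzMap.norm_le_seminorm ℂ f x⟩
  refine hC lam f B₀ B₁ hl h01 hf hB₀ fun L hL => ?_
  have h1 := Pool.Agent.H48.BR.aqp_dist hAM1 hAM2 a b L ha1 hb1 hL f p hf.1 hf.2.2 hp1
  obtain ⟨h2, h3⟩ := hCD L f hL
  have h4 : ∑ i : Fin b, ∑ j : Fin b,
      ∫⁻ x, ‖rotd (Fin.natAdd a i) (Fin.natAdd a j) f x‖ₑ ^ p ≤ ((b : ℝ≥0∞) * b) * B₁ := by
    calc ∑ i : Fin b, ∑ j : Fin b,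
          ∫⁻ x, ‖rotd (Fin.natAdd a i) (Fin.natAdd a j) f x‖ₑ ^ p
        ≤ ∑ _i : Fin b, ∑ _j : Fin b, B₁ :=
          Finset.sum_le_sum fun i _ => Finset.sum_le_sum fun j _ => hB₁ _ _ (by simp)
      _ = _ := by
          rw [Finset.sum_const, Finset.sum_const, Finset.card_univ, Fintype.card_fin,
            nsmul_eq_mul, nsmul_eq_mul]
          ring
  have h5 : ∑ i : Fin a, ∑ j : Fin a,
      ∫⁻ x, ‖rotd (Fin.castAdd b i) (Fin.castAdd b j) f x‖ₑ ^ p ≤ ((a : ℝ≥0∞) * a) * B₁ := by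
    calc ∑ i : Fin a, ∑ j : Fin a,
          ∫⁻ x, ‖rotd (Fin.castAdd b i) (Fin.castAdd b j) f x‖ₑ ^ p
        ≤ ∑ _i : Fin a, ∑ _j : Fin a, B₁ :=
          Finset.sum_le_sum fun i _ => Finset.sum_le_sum fun j _ => hB₁ _ _ (by simp)
      _ = _ := by
          rw [Finset.sum_const, Finset.sum_const, Finset.card_univ, Fintype.card_fin,
            nsmul_eq_mul, nsmul_eq_mul]
          ring
  have h6 : (CD' : ℝ≥0∞) = ENNReal.ofReal ((4 : ℝ) ^ p) * CD *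
      (((b : ℝ≥0∞) * b) + ((a : ℝ≥0∞) * a)) := by
    rw [hCD']
    push_cast
    rw [ENNReal.coe_toNNReal ENNReal.ofReal_ne_top]
  refine h1.trans ?_
  calc ENNReal.ofReal ((4 : ℝ) ^ p) *
        ((∫⁻ x, ‖f x - A2 a b L f x‖ₑ ^ p) + ∫⁻ x, ‖f x - A1 a b L f x‖ₑ ^ p)
      ≤ ENNReal.ofReal ((4 : ℝ) ^ p) *
        (CD * ENNReal.ofReal (L ^ (-p)) * (((b : ℝ≥0∞) * b) * B₁) +
          CD * ENNReal.ofReal (L ^ (-p)) * (((a : ℝ≥0∞) * a) * B₁)) := by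
        refine mul_le_mul' le_rfl (add_le_add ?_ ?_)
        · exact h2.trans (mul_le_mul' le_rfl h4)
        · exact h3.trans (mul_le_mul' le_rfl h5)
    _ = _ := by
        rw [h6]
        ring

end Pool.Agent.H86.B2
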